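import Pool.Agent.Helper22.TL.Spec

set_option autoImplicit false

namespace TL

open Set

lemma hyp_pg_comp {G ι κ : Type} [Group G] (ρ : ι → G) (e : κ ≃ ι) (h : PG ρ) :
    PG (fun k => ρ (e k)) := by
  obtain ⟨C, a, h⟩ := h
  refine ⟨C, a, fun n => ?_⟩
  have : {g : G | ∃ l : List κ, l.length ≤ n ∧ (l.map (fun k => ρ (e k))).prod = g} =
      {g : G | ∃ l : List ι, l.length ≤ n ∧ (l.map ρ).prod = g} := by
    ext g
    constructor
    · rintro ⟨l, hl, rfl⟩
      refine ⟨l.map e, by simpa using hl, ?_⟩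
      rw [List.map_map]
      rfl
    · rintro ⟨l, hl, rfl⟩
      refine ⟨l.map e.symm, by simpa using hl, ?_⟩
      rw [List.map_map]
      congr 1
      apply List.map_congr_left
      intro x _
      simp
  rw [this]
  exact h n

theorem hyp_thm (hC : S_COX) (h1 : S_H353) (h2 : S_H435) (h3 : S_H535) (h4 : S_H3335)
    (h5 : S_H4335) (h6 : S_H5335) : S_HYP := by
  intro d G _ ρ hG hPG hH
  obtain ⟨M, cs, hcs, hM⟩ := hC d G ρ hG
  have hsimp : cs.simple = ρ := funext hcs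
  have hPG1 : PG cs.simple := by rw [hsimp]; exact hPG
  have hPG2 : PG (cs.reindex Fin.revPerm).simple := by
    have := hyp_pg_comp ρ (Fin.revPerm (n := d + 1)) hPG
    have h7 : (cs.reindex Fin.revPerm).simple = fun k => ρ (Fin.revPerm k) := by
      funext k
      rw [CoxeterSystem.reindex_simple, hsimp]
      rfl
    rw [h7]
    exact this
  have h2' : ∀ i j : Fin (d + 1), (i : ℕ) + 2 ≤ j → M i j = 2 := by
    intro i j hij
    rw [hM, hG.comm i j hij]
  have h2'' : ∀ i j : Fin (d + 1), (j : ℕ) + 2 ≤ i → M i j = 2 := by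
    intro i j hij
    rw [M.symmetric, h2' j i hij]
  have hp : ∀ (i j : Fin (d + 1)) , (i : ℕ) + 1 = j → M i j = pp ρ i := by
    intro i j hij
    rw [hM]
    unfold pp
    have hi : (i : ℕ) < d := by omega
    rw [dif_pos hi]
    congr 3
    exact Fin.ext hij.symm
  have hp' : ∀ (i j : Fin (d + 1)) , (j : ℕ) + 1 = i → M i j = pp ρ j := by
    intro i j hij
    rw [M.symmetric, hp j i hij]
  have hR : ∀ i j : Fin (d + 1), (M.reindex Fin.revPerm) i j = M (Fin.rev i) (Fin.rev j) := by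
    intro i j
    rfl
  rcases hH with ⟨rfl, hH⟩ | ⟨rfl, hH⟩
  · simp only [Prod.mk.injEq] at hH
    rcases hH with ⟨ha, hb, hc⟩ | ⟨ha, hb, hc⟩ | ⟨ha, hb, hc⟩ | ⟨ha, hb, hc⟩
    · refine h1 G M cs ?_ ?_ ?_ (h2' 0 2 (by decide)) (h2' 0 3 (by decide)) (h2' 1 3 (by decide)) hPG1
      · rw [hp 0 1 (by decide)]; exact ha
      · rw [hp 1 2 (by decide)]; exact hb
      · rw [hp 2 3 (by decide)]; exact hc
    · refine h2 G M cs ?_ ?_ ?_ (h2' 0 2 (by decide)) (h2' 0 3 (by decide)) (h2' 1 3 (by decide)) hPG1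
      · rw [hp 0 1 (by decide)]; exact ha
      · rw [hp 1 2 (by decide)]; exact hb
      · rw [hp 2 3 (by decide)]; exact hc
    · refine h2 G _ (cs.reindex Fin.revPerm) ?_ ?_ ?_ ?_ ?_ ?_ hPG2
      · rw [hR, hp' _ _ (by decide)]; exact hc
      · rw [hR, hp' _ _ (by decide)]; exact hb
      · rw [hR, hp' _ _ (by decide)]; exact ha
      · rw [hR]; exact h2'' _ _ (by decide)
      · rw [hR]; exact h2'' _ _ (by decide)
      · rw [hR]; exact h2'' _ _ (by decide)
    · refine h3 G M cs ?_ ?_ ?_ (h2' 0 2 (by decide)) (h2' 0 3 (by decide)) (h2' 1 3 (by decide)) hPG1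
      · rw [hp 0 1 (by decide)]; exact ha
      · rw [hp 1 2 (by decide)]; exact hb
      · rw [hp 2 3 (by decide)]; exact hc
  · simp only [Prod.mk.injEq] at hH
    rcases hH with ⟨ha, hb, hc, hd⟩ | ⟨ha, hb, hc, hd⟩ | ⟨ha, hb, hc, hd⟩ | ⟨ha, hb, hc, hd⟩ |
      ⟨ha, hb, hc, hd⟩
    · refine h4 G M cs ?_ ?_ ?_ ?_ (h2' 0 2 (by decide)) (h2' 0 3 (by decide))
        (h2' 0 4 (by decide)) (h2' 1 3 (by decide)) (h2' 1 4 (by decide)) (h2' 2 4 (by decide)) hPG1
      · rw [hp 0 1 (by decide)]; exact ha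
      · rw [hp 1 2 (by decide)]; exact hb
      · rw [hp 2 3 (by decide)]; exact hc
      · rw [hp 3 4 (by decide)]; exact hd
    · refine h4 G _ (cs.reindex Fin.revPerm) ?_ ?_ ?_ ?_ ?_ ?_ ?_ ?_ ?_ ?_ hPG2
      · rw [hR, hp' _ _ (by decide)]; exact hd
      · rw [hR, hp' _ _ (by decide)]; exact hc
      · rw [hR, hp' _ _ (by decide)]; exact hb
      · rw [hR, hp' _ _ (by decide)]; exact ha
      all_goals (rw [hR]; exact h2'' _ _ (by decide))
    · refine h5 G M cs ?_ ?_ ?_ ?_ (h2' 0 2 (by decide)) (h2' 0 3 (by decide))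
        (h2' 0 4 (by decide)) (h2' 1 3 (by decide)) (h2' 1 4 (by decide)) (h2' 2 4 (by decide)) hPG1
      · rw [hp 0 1 (by decide)]; exact ha
      · rw [hp 1 2 (by decide)]; exact hb
      · rw [hp 2 3 (by decide)]; exact hc
      · rw [hp 3 4 (by decide)]; exact hd
    · refine h5 G _ (cs.reindex Fin.revPerm) ?_ ?_ ?_ ?_ ?_ ?_ ?_ ?_ ?_ ?_ hPG2
      · rw [hR, hp' _ _ (by decide)]; exact hd
      · rw [hR, hp' _ _ (by decide)]; exact hc
      · rw [hR, hp' _ _ (by decide)]; exact hb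
      · rw [hR, hp' _ _ (by decide)]; exact ha
      all_goals (rw [hR]; exact h2'' _ _ (by decide))
    · refine h6 G M cs ?_ ?_ ?_ ?_ (h2' 0 2 (by decide)) (h2' 0 3 (by decide))
        (h2' 0 4 (by decide)) (h2' 1 3 (by decide)) (h2' 1 4 (by decide)) (h2' 2 4 (by decide)) hPG1
      · rw [hp 0 1 (by decide)]; exact ha
      · rw [hp 1 2 (by decide)]; exact hb
      · rw [hp 2 3 (by decide)]; exact hc
      · rw [hp 3 4 (by decide)]; exact hd

end TL
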