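import Pool.Agent.Helper22.TL.Spec

set_option autoImplicit false

namespace TL

open Set

lemma ind_aff {d : ℕ} (φ : E d ≃ᵢ E d) : ∃ a : E d →ᵃ[ℝ] E d, ∀ x, a x = φ x :=
  ⟨(φ.toRealAffineIsometryEquiv.toAffineEquiv : E d →ᵃ[ℝ] E d), fun x => rfl⟩

lemma ind_openSegment {d : ℕ} (φ : E d ≃ᵢ E d) {x y z : E d} (h : φ z ∈ openSegment ℝ (φ x) (φ y)) :
    z ∈ openSegment ℝ x y := by
  obtain ⟨a, ha⟩ := ind_aff φ
  have h1 : φ '' openSegment ℝ x y = openSegment ℝ (φ x) (φ y) := by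
    have := image_openSegment ℝ a x y
    simp only [ha] at this
    rw [← this]
  rw [← h1] at h
  obtain ⟨w, hw, hwz⟩ := h
  rwa [φ.injective hwz] at hw

lemma ind_face {d : ℕ} (φ : E d ≃ᵢ E d) {T F : Set (E d)} (h : IsFace T F) :
    IsFace (φ '' T) (φ '' F) := by
  obtain ⟨⟨hsub, hext⟩, hcon⟩ := h
  obtain ⟨a, ha⟩ := ind_aff φ
  refine ⟨⟨image_mono hsub, ?_⟩, ?_⟩
  · rintro _ ⟨x, hx, rfl⟩ _ ⟨y, hy, rfl⟩ _ ⟨z, hz, rfl⟩ hzz
    exact ⟨x, hext hx hy hz (ind_openSegment φ hzz), rfl⟩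
  · have h2 : Convex ℝ (a '' F) := hcon.affine_image a
    have h3 : (a '' F) = φ '' F := by
      ext x; simp [ha]
    rwa [h3] at h2

lemma ind_mem {d : ℕ} {𝒯 : Set (Set (E d))} (φ : E d ≃ᵢ E d)
    (h : ∀ T : Set (E d), φ '' T ∈ 𝒯 ↔ T ∈ 𝒯) {F : Set (E d)}
    (hF : F = univ ∨ ∃ T ∈ 𝒯, IsFace T F) :
    (φ '' F = univ ∨ ∃ T ∈ 𝒯, IsFace T (φ '' F)) := by
  rcases hF with rfl | ⟨T, hT, hF⟩
  · left; exact image_univ_of_surjective φ.surjective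
  · right; exact ⟨φ '' T, (h T).2 hT, ind_face φ hF⟩

theorem ind_thm : S_IND := by
  intro d 𝒯 Γ hΓ
  let F : Γ → FP 𝒯 → FP 𝒯 := fun φ x => ⟨(φ : E d ≃ᵢ E d) '' x.1, ind_mem _ (hΓ φ φ.2) x.2⟩
  have hF1 : ∀ x, F 1 x = x := by
    intro x
    apply Subtype.ext
    change ((1 : Γ) : E d ≃ᵢ E d) '' x.1 = x.1
    ext y
    simp
  have hFm : ∀ φ ψ x, F (φ * ψ) x = F φ (F ψ x) := by
    intro φ ψ x
    apply Subtype.ext
    change ((φ * ψ : Γ) : E d ≃ᵢ E d) '' x.1 = (φ : E d ≃ᵢ E d) '' ((ψ : E d ≃ᵢ E d) '' x.1)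
    rw [image_image]
    rfl
  have hFle : ∀ φ x y, F φ x ≤ F φ y ↔ x ≤ y := by
    intro φ x y
    exact image_subset_image_iff (φ : E d ≃ᵢ E d).injective
  let G : Γ → Au 𝒯 := fun φ =>
    { toFun := F φ
      invFun := F φ⁻¹
      left_inv := fun x => by rw [← hFm, inv_mul_cancel, hF1]
      right_inv := fun x => by rw [← hFm, mul_inv_cancel, hF1]
      map_rel_iff' := by
        intro x y
        exact hFle φ x y }
  refine ⟨{ toFun := G, map_one' := ?_, map_mul' := ?_ }, ?_⟩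
  · apply RelIso.ext
    intro x
    exact hF1 x
  · intro φ ψ
    apply RelIso.ext
    intro x
    exact hFm φ ψ x
  · intro φ x
    rfl

end TL
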