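import Pool.Agent.Helper22.TL.Spec

set_option autoImplicit false

namespace TL

open Set

lemma reg_sum {d : ℕ} (φ : E d ≃ᵢ E d) {ι : Type*} (s : Finset ι) (w : ι → ℝ) (p : ι → E d)
    (hw : ∑ i ∈ s, w i = 1) : φ (∑ i ∈ s, w i • p i) = ∑ i ∈ s, w i • φ (p i) := by
  have ha : ∀ x, (φ.toRealAffineIsometryEquiv.toAffineEquiv : E d →ᵃ[ℝ] E d) x = φ x :=
    fun _ => rfl
  have h1 := Finset.map_affineCombination s p w hw
    (φ.toRealAffineIsometryEquiv.toAffineEquiv : E d →ᵃ[ℝ] E d)
  rw [Finset.affineCombination_eq_linear_combination _ _ _ hw,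
    Finset.affineCombination_eq_linear_combination _ _ _ hw, ha] at h1
  rw [h1]
  rfl

open Classical in
/-- mean of the centres -/
noncomputable def regm {d : ℕ} (c : Set (E d) → E d) (C : Finset (Set (E d))) : E d :=
  ∑ F ∈ C, ((C.card : ℝ)⁻¹) • c F

open Classical in
lemma regm_image {d : ℕ} (c : Set (E d) → E d) (C : Finset (Set (E d))) (hC : C.Nonempty)
    (φ : E d ≃ᵢ E d) (h : ∀ F ∈ C, c (φ '' F) = φ (c F)) :
    regm c (C.image (fun F => φ '' F)) = φ (regm c C) := by
  unfold regm
  have hinj : Function.Injective (fun F : Set (E d) => φ '' F) := image_injective.2 φ.injective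
  rw [Finset.card_image_of_injective _ hinj, Finset.sum_image (fun a _ b _ hab => hinj hab),
    reg_sum]
  · exact Finset.sum_congr rfl fun F hF => by rw [h F hF]
  · rw [Finset.sum_const, nsmul_eq_mul]
    have : (C.card : ℝ) ≠ 0 := by exact_mod_cast hC.card_pos.ne'
    field_simp

open Classical in
theorem reg_thm (hT3 : S_T3) (hGLOB : S_GLOB) (hDIM : S_DIM) (hCEN : S_CEN) (hFOLD : S_FOLD)
    (hEXT : S_EXT) : S_REG := by
  intro d 𝒯 hd hL Φ s hs hfix hne
  obtain ⟨hg1, hg2, hg3, hg4, hg5, hg6, hg7⟩ := hGLOB d 𝒯 hL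
  obtain ⟨c, hc, hcs⟩ := hCEN d 𝒯 hL
  obtain ⟨he1, he2⟩ := hEXT d 𝒯 hd hL
  -- the group
  set Γ : Subgroup (E d ≃ᵢ E d) := Subgroup.closure (range s) with hΓ
  have hpres : ∀ g ∈ Γ, ∀ T : Set (E d), g '' T ∈ 𝒯 ↔ T ∈ 𝒯 := by
    intro g hg
    induction hg using Subgroup.closure_induction with
    | mem x hx =>
      obtain ⟨i, rfl⟩ := hx
      exact hs i
    | one =>
      intro T
      have : ((1 : E d ≃ᵢ E d) : E d → E d) '' T = T := by
        ext y; simp
      rw [this]
    | mul x y _ _ hx hy =>
      intro T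
      have : ((x * y : E d ≃ᵢ E d) : E d → E d) '' T = x '' (y '' T) := by
        rw [image_image]; rfl
      rw [this, hx, hy]
    | inv x _ hx =>
      intro T
      have : x '' ((x⁻¹ : E d ≃ᵢ E d) '' T) = T := by
        rw [image_image]
        have : ∀ y, x ((x⁻¹ : E d ≃ᵢ E d) y) = y := fun y => x.apply_symm_apply y
        simp [this]
      rw [← hx, this]
  have hFc : ∀ g ∈ Γ, ∀ F, Fc 𝒯 F → Fc 𝒯 (g '' F) := fun g hg F hF =>
    (hcs g (hpres g hg) F hF).1
  have hcg : ∀ g ∈ Γ, ∀ F, Fc 𝒯 F → c (g '' F) = g (c F) := fun g hg F hF =>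
    (hcs g (hpres g hg) F hF).2
  have hsΓ : ∀ i, s i ∈ Γ := fun i => Subgroup.subset_closure ⟨i, rfl⟩
  -- the base chamber
  set b : Fin (d + 1) → E d := fun j => c (Φ.F j) with hb
  have hbaff : AffineIndependent ℝ b :=
    ((hDIM d 𝒯 hL).1 (d + 1) Φ.F c Φ.fc Φ.mono (fun i => hc _ (Φ.fc i))).1
  have hcinj : ∀ F G, Fc 𝒯 F → Fc 𝒯 G → c F = c G → F = G := by
    intro F G hF hG h
    have h1 := hc F hF
    have h2 := hc G hG
    apply Subset.antisymm
    · exact (hg1 F G (c F) hF hG h1 (by rw [h]; exact h2.1)).1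
    · exact (hg1 G F (c G) hG hF h2 (by rw [← h]; exact h1.1)).1
  have hsb : ∀ i j, j ≠ i → s i (b j) = b j := by
    intro i j hij
    rw [hb]
    simp only
    rw [← hcg _ (hsΓ i) _ (Φ.fc j), hfix i j hij]
  have hsb' : ∀ i, s i (b i) ≠ b i := by
    intro i h
    rw [hb] at h
    simp only at h
    rw [← hcg _ (hsΓ i) _ (Φ.fc i)] at h
    exact hne i (hcinj _ _ (hFc _ (hsΓ i) _ (Φ.fc i)) (Φ.fc i) h)
  have hint : (interior (convexHull ℝ (range b))).Nonempty := by
    rw [interior_convexHull_nonempty_iff_affineSpan_eq_top]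
    rw [hbaff.affineSpan_eq_top_iff_card_eq_finrank_add_one]
    simp
  obtain ⟨o, ho⟩ := hint
  -- main claim
  have key : ∀ c' : Set (FP 𝒯), IsMaxChain (· ≤ ·) c' → ∃ g ∈ Γ,
      Subtype.val '' c' = (fun F : Set (E d) => g '' F) '' ({∅, univ} ∪ range Φ.F) := by
    intro c' hc'
    obtain ⟨C, hC1, hC2, -, -, -⟩ := he2 c' hc'
    have hchain : IsChain (· ⊆ ·) (C : Set (Set (E d))) := by
      intro F hF G hG _
      obtain ⟨-, -, x, hx, rfl⟩ := (hC1 F).1 hF
      obtain ⟨-, -, y, hy, rfl⟩ := (hC1 G).1 hG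
      rcases eq_or_ne x y with h | h
      · left; rw [h]
      · exact hc'.1 hx hy h
    have htop : ∀ F, Fc 𝒯 F → F ≠ univ := by
      intro F hF h
      have h1 := (hg4 F hF).1
      rw [h] at h1
      have : Nonempty (Fin d) := ⟨⟨0, by omega⟩⟩
      have : Nontrivial (E d) := inferInstance
      have : NoncompactSpace (E d) := NormedSpace.noncompactSpace ℝ (E d)
      exact noncompact_univ (E d) h1
    have hCne : C.Nonempty := by
      by_contra hCe
      rw [Finset.not_nonempty_iff_eq_empty] at hCe
      have hall : ∀ x ∈ c', x.1 = ∅ ∨ x.1 = univ := by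
        intro x hx
        by_contra hcon
        push Not at hcon
        have : x.1 ∈ C := (hC1 x.1).2 ⟨hcon.1, hcon.2, x, hx, rfl⟩
        rw [hCe] at this
        simp at this
      have hnew : IsChain (· ≤ ·) (insert (Φ.el 0) c') := by
        apply hc'.1.insert
        intro x hx _
        rcases hall x hx with h | h
        · right
          change x.1 ⊆ (Φ.el 0).1
          rw [h]; exact empty_subset _
        · left
          change (Φ.el 0).1 ⊆ x.1
          rw [h]; exact subset_univ _
      have h1 := hc'.2 hnew (subset_insert _ _)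
      have h2 : Φ.el 0 ∈ c' := by rw [h1]; exact mem_insert _ _
      rcases hall _ h2 with h | h
      · have := (Φ.fc 0).1
        rw [show Φ.F 0 = ∅ from h] at this
        exact not_nonempty_empty this
      · exact htop _ (Φ.fc 0) h
    -- the orbit
    set R : ℝ := dist (regm c C) o with hR
    obtain ⟨D, hD⟩ : ∃ D : ℝ, ∀ F ∈ C, F ⊆ Metric.closedBall (regm c C) D := by
      have hcomp : IsCompact (⋃ F ∈ C, F) := by
        apply Finset.isCompact_biUnion
        intro F hF
        exact (hg4 F (hC2 F hF)).1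
      obtain ⟨D, hD⟩ := hcomp.isBounded.subset_closedBall (regm c C)
      exact ⟨D, fun F hF => (subset_biUnion_of_mem (u := fun F => F) hF).trans hD⟩
    have hfin := hg7 (Metric.closedBall o (R + D)) (isCompact_closedBall _ _)
    set A : Set (Finset (Set (E d))) :=
      {C' | ∃ g ∈ Γ, C' = C.image (fun F => g '' F) ∧ dist (regm c C') o ≤ R} with hA
    have hreg : ∀ g ∈ Γ, regm c (C.image (fun F => g '' F)) = g (regm c C) := by
      intro g hg
      exact regm_image c C hCne g (fun F hF => hcg g hg F (hC2 F hF))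
    have hAfin : A.Finite := by
      apply (hfin.toFinset.powerset.finite_toSet).subset
      rintro C' ⟨g, hg, rfl, hgR⟩
      rw [Finset.mem_coe, Finset.mem_powerset]
      intro G hG
      rw [Finset.mem_image] at hG
      obtain ⟨F, hF, rfl⟩ := hG
      rw [Set.Finite.mem_toFinset]
      have hf := hC2 F hF
      refine ⟨hFc g hg F hf, ?_⟩
      obtain ⟨z, hz⟩ := hf.1
      refine ⟨g z, mem_image_of_mem _ hz, ?_⟩
      rw [hreg g hg] at hgR
      rw [Metric.mem_closedBall]
      calc dist (g z) o ≤ dist (g z) (g (regm c C)) + dist (g (regm c C)) o := dist_triangle _ _ _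
        _ ≤ D + R := by
          apply add_le_add _ hgR
          rw [g.isometry.dist_eq]
          exact hD F hF hz
        _ = R + D := by ring
    have hone : C = C.image (fun F => (1 : E d ≃ᵢ E d) '' F) := by
      have : (fun F : Set (E d) => ((1 : E d ≃ᵢ E d) : E d → E d) '' F) = id := by
        funext F
        ext y; simp
      rw [this, Finset.image_id]
    have hAne : A.Nonempty := ⟨C, 1, Γ.one_mem, hone, le_rfl⟩
    obtain ⟨C₀, hC₀, hmin⟩ := exists_min_image A (fun C' => dist (regm c C') o) hAfin hAne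
    obtain ⟨g, hg, hC₀g, hgR⟩ := hC₀
    have hC₀' : regm c C₀ = g (regm c C) := by rw [hC₀g, hreg g hg]
    have hin : regm c C₀ ∈ convexHull ℝ (range b) := by
      by_contra hout
      obtain ⟨i, hi⟩ := hFOLD d b s hd hbaff hsb hsb' o ho _ hout
      have hsg : s i * g ∈ Γ := Γ.mul_mem (hsΓ i) hg
      have hreg2 : regm c (C.image (fun F => (s i * g : E d ≃ᵢ E d) '' F)) = s i (regm c C₀) := by
        rw [hreg _ hsg, hC₀']
        rfl
      have h2 : C.image (fun F => (s i * g : E d ≃ᵢ E d) '' F) ∈ A := by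
        refine ⟨s i * g, hsg, rfl, ?_⟩
        rw [hreg2]
        exact hi.le.trans hgR
      have h3 : dist (regm c C₀) o ≤
        dist (regm c (C.image (fun F => (s i * g : E d ≃ᵢ E d) '' F))) o := hmin _ h2
      rw [hreg2] at h3
      linarith
    -- barycentric coordinates
    have hC₀fc : ∀ F ∈ C₀, Fc 𝒯 F := by
      intro F hF
      rw [hC₀g, Finset.mem_image] at hF
      obtain ⟨G, hG, rfl⟩ := hF
      exact hFc g hg G (hC2 G hG)
    have hC₀chain : IsChain (· ⊆ ·) (C₀ : Set (Set (E d))) := by
      intro F hF G hG _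
      rw [Finset.mem_coe, hC₀g, Finset.mem_image] at hF hG
      obtain ⟨F', hF', rfl⟩ := hF
      obtain ⟨G', hG', rfl⟩ := hG
      rcases eq_or_ne F' G' with h | h
      · left; rw [h]
      · rcases hchain hF' hG' h with h | h
        · left; exact image_mono h
        · right; exact image_mono h
    have hC₀ne : C₀.Nonempty := by
      rw [hC₀g]; exact hCne.image _
    have hsub : ∀ F ∈ C₀, F ∈ range Φ.F := by
      rw [convexHull_range_eq_exists_affineCombination] at hin
      obtain ⟨t, w, hw0, hw1, hw⟩ := hin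
      rw [Finset.affineCombination_eq_linear_combination _ _ _ hw1] at hw
      set P : Finset (Fin (d + 1)) := t.filter (fun i => 0 < w i) with hP
      have hPw : ∀ (f : Fin (d + 1) → E d), ∑ i ∈ t, w i • f i = ∑ i ∈ P, w i • f i := by
        intro f
        rw [hP, Finset.sum_filter]
        apply Finset.sum_congr rfl
        intro i hi
        split_ifs with h
        · rfl
        · have : w i = 0 := le_antisymm (not_lt.1 h) (hw0 i hi)
          rw [this, zero_smul]
      have hPw1 : ∑ i ∈ P, w i = 1 := by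
        rw [← hw1, hP, Finset.sum_filter]
        apply Finset.sum_congr rfl
        intro i hi
        split_ifs with h
        · rfl
        · exact (le_antisymm (not_lt.1 h) (hw0 i hi)).symm
      have hΦinj : Function.Injective Φ.F := Φ.mono.injective
      set C₁ : Finset (Set (E d)) := P.image Φ.F with hC₁
      let w' : Set (E d) → ℝ := fun F => if h : ∃ i, Φ.F i = F then w h.choose else 0
      have hw' : ∀ i, w' (Φ.F i) = w i := by
        intro i
        have h : ∃ j, Φ.F j = Φ.F i := ⟨i, rfl⟩
        simp only [w', dif_pos h]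
        rw [hΦinj h.choose_spec]
      have hsum1 : ∑ F ∈ C₁, w' F = 1 := by
        rw [hC₁, Finset.sum_image (fun a _ b _ hab => hΦinj hab)]
        simp only [hw']
        exact hPw1
      have hsum2 : ∑ F ∈ C₁, w' F • c F = regm c C₀ := by
        rw [hC₁, Finset.sum_image (fun a _ b _ hab => hΦinj hab)]
        simp only [hw']
        rw [← hw, hPw]
      have h4 := hT3 d 𝒯 hL c hc C₀ C₁ (fun _ => (C₀.card : ℝ)⁻¹) w' hC₀fc
        (by
          intro F hF
          rw [hC₁, Finset.mem_image] at hF
          obtain ⟨i, -, rfl⟩ := hF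
          exact Φ.fc i) hC₀chain
        (by
          intro F hF G hG _
          rw [Finset.mem_coe, hC₁, Finset.mem_image] at hF hG
          obtain ⟨i, -, rfl⟩ := hF
          obtain ⟨j, -, rfl⟩ := hG
          rcases le_total i j with h | h
          · left; exact Φ.mono.monotone h
          · right; exact Φ.mono.monotone h)
        (by
          intro F _
          have : (0 : ℝ) < C₀.card := by exact_mod_cast hC₀ne.card_pos
          exact inv_pos.2 this)
        (by
          intro F hF
          rw [hC₁, Finset.mem_image] at hF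
          obtain ⟨i, hi, rfl⟩ := hF
          rw [hw']
          rw [hP, Finset.mem_filter] at hi
          exact hi.2)
        (by
          rw [Finset.sum_const, nsmul_eq_mul]
          have : (C₀.card : ℝ) ≠ 0 := by exact_mod_cast hC₀ne.card_pos.ne'
          field_simp)
        hsum1
        (by rw [hsum2]; rfl)
      intro F hF
      rw [h4.1, hC₁, Finset.mem_image] at hF
      obtain ⟨i, -, rfl⟩ := hF
      exact ⟨i, rfl⟩
    -- maximality
    have hginv : g⁻¹ ∈ Γ := Γ.inv_mem hg
    refine ⟨g⁻¹, hginv, ?_⟩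
    have hgg : ∀ F : Set (E d), (g⁻¹ : E d ≃ᵢ E d) '' (g '' F) = F := by
      intro F
      rw [image_image]
      have : ∀ y, (g⁻¹ : E d ≃ᵢ E d) (g y) = y := fun y => g.symm_apply_apply y
      simp [this]
    set B : Set (FP 𝒯) := {x | x.1 ∈ (fun F : Set (E d) => (g⁻¹ : E d ≃ᵢ E d) '' F) ''
      (({∅, univ} : Set (Set (E d))) ∪ range Φ.F)} with hB
    have huniv : (g⁻¹ : E d ≃ᵢ E d) '' (univ : Set (E d)) = univ :=
      image_univ_of_surjective (g⁻¹ : E d ≃ᵢ E d).surjective
    have hcB : c' ⊆ B := by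
      intro x hx
      rw [hB, mem_ofPred_eq]
      by_cases h0 : x.1 = ∅
      · exact ⟨∅, by simp, by simp [h0]⟩
      · by_cases h1 : x.1 = univ
        · exact ⟨univ, by simp, by simp only [huniv, h1]⟩
        · have hxC : x.1 ∈ C := (hC1 x.1).2 ⟨nonempty_iff_ne_empty.2 h0, h1, x, hx, rfl⟩
          have hxC₀ : g '' x.1 ∈ C₀ := by
            rw [hC₀g]; exact Finset.mem_image_of_mem _ hxC
          exact ⟨g '' x.1, Or.inr (hsub _ hxC₀), hgg _⟩
    have hBchain : IsChain (· ≤ ·) B := by
      intro x hx y hy _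
      rw [hB, mem_ofPred_eq] at hx hy
      obtain ⟨F, hF, hFx⟩ := hx
      obtain ⟨G, hG, hGy⟩ := hy
      simp only at hFx hGy
      have hFG : F ⊆ G ∨ G ⊆ F := by
        rcases hF with hF | ⟨i, rfl⟩
        · rcases hF with rfl | hF
          · left; exact empty_subset _
          · right; rw [mem_singleton_iff.1 hF]; exact subset_univ _
        · rcases hG with hG | ⟨j, rfl⟩
          · rcases hG with rfl | hG
            · right; exact empty_subset _
            · left; rw [mem_singleton_iff.1 hG]; exact subset_univ _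
          · rcases le_total i j with h | h
            · left; exact Φ.mono.monotone h
            · right; exact Φ.mono.monotone h
      rcases hFG with h | h
      · left
        change x.1 ⊆ y.1
        rw [← hFx, ← hGy]
        exact image_mono h
      · right
        change y.1 ⊆ x.1
        rw [← hFx, ← hGy]
        exact image_mono h
    have hcBeq := hc'.2 hBchain hcB
    rw [hcBeq]
    ext F
    constructor
    · rintro ⟨x, hx, rfl⟩
      exact hx
    · intro hF
      have hFmem : F = univ ∨ ∃ T ∈ 𝒯, IsFace T F := by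
        obtain ⟨G, hG, rfl⟩ := hF
        simp only
        rcases hG with hG | ⟨i, rfl⟩
        · rcases hG with rfl | hG
          · right
            obtain ⟨T, hT, -⟩ := hL.cover 0
            refine ⟨T, hT, ?_⟩
            rw [image_empty]
            refine ⟨⟨empty_subset _, ?_⟩, convex_empty⟩
            intro x _ y _ z hz
            exact absurd hz (notMem_empty z)
          · left
            rw [mem_singleton_iff.1 hG, huniv]
        · right
          exact (hFc _ hginv _ (Φ.fc i)).2
      exact ⟨⟨F, hFmem⟩, hF, rfl⟩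
  intro c₁ c₂ hc₁ hc₂
  obtain ⟨g₁, hg₁, h₁⟩ := key c₁ hc₁
  obtain ⟨g₂, hg₂, h₂⟩ := key c₂ hc₂
  refine ⟨g₂ * g₁⁻¹, hpres _ (Γ.mul_mem hg₂ (Γ.inv_mem hg₁)), ?_⟩
  rw [h₁, h₂, image_image]
  apply image_congr
  intro F _
  rw [image_image]
  have : ∀ y, (g₂ * g₁⁻¹ : E d ≃ᵢ E d) (g₁ y) = g₂ y := by
    intro y
    change g₂ (g₁.symm (g₁ y)) = g₂ y
    rw [g₁.symm_apply_apply]
  simp [this]

end TL
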